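import Pool.Agent.H484.ST.One
import Pool.Agent.H484.ST.Zd

/-!
Almost surely all multiplicative functions with values `±1` near the random signs, up to a twist by
a character, are aperiodic and have vanishing correlations.
-/

set_option autoImplicit false
set_option linter.unusedVariables false

namespace Pool.Agent.H484.ST

open Finset Filter MeasureTheory ProbabilityTheory
open Pool.Agent.W257.FS (SignMul IsFurst bern)

/-- `f` is aperiodic -/
def Aper (f : ℕ → ℝ) : Prop :=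
  ∀ (q : ℕ) (χ : DirichletCharacter ℂ q), 1 ≤ q → ¬ Summable (fun p : Nat.Primes =>
    (1 - ((f p : ℂ) * star (χ ((p : ℕ) : ZMod q))).re) / ((p : ℕ) : ℝ))

theorem char_count (q : ℕ) : Countable (DirichletCharacter ℂ q) := by
  rcases Nat.eq_zero_or_pos q with h | h
  · subst h
    have : Finite (ZMod 0)ˣ := inferInstanceAs (Finite ℤˣ)
    have : Finite (DirichletCharacter ℂ 0) := MulChar.finite
    exact Finite.to_countable
  · have : NeZero q := ⟨by omega⟩
    have : Finite (DirichletCharacter ℂ q) := inferInstance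
    exact Finite.to_countable

theorem char_norm {q : ℕ} (χ : DirichletCharacter ℂ q) (n : ℕ) : ‖χ (n : ZMod q)‖ ≤ 1 :=
  DirichletCharacter.norm_le_one χ _

variable {Ω : Type*} [MeasurableSpace Ω] {P : Measure Ω} [IsProbabilityMeasure P]

theorem sign_mean {e : ℕ → Ω → ℝ} (he : ∀ p ω, e p ω = 1 ∨ e p ω = -1) (p : ℕ) :
    |∫ ω, e p ω ∂P| ≤ 1 := by
  have h1 := norm_integral_le_of_norm_le_const (μ := P) (C := 1)
    (Filter.Eventually.of_forall fun ω => show ‖e p ω‖ ≤ 1 by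
      rcases he p ω with h | h <;> rw [h] <;> simp)
  simpa using h1

/-- the normalisation at zero -/
noncomputable def nz (f : ℕ → ℝ) (n : ℕ) : ℂ := if n = 0 then 1 else (f n : ℂ)

theorem nz_pos {f : ℕ → ℝ} {n : ℕ} (hn : 1 ≤ n) : nz f n = (f n : ℂ) := by
  unfold nz
  rw [if_neg (by omega)]

theorem nz_mult {f : ℕ → ℝ} (h1 : f 1 = 1) (hm : ∀ m n : ℕ, Nat.Coprime m n → f (m * n) = f m * f n) :
    Mult (nz f) := by
  refine ⟨by rw [nz_pos le_rfl, h1]; simp, fun m n hmn => ?_⟩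
  rcases Nat.eq_zero_or_pos m with hm0 | hm0
  · subst hm0
    have hn : n = 1 := by simpa using hmn
    subst hn
    rw [mul_one, nz_pos le_rfl, h1]
    simp
  rcases Nat.eq_zero_or_pos n with hn0 | hn0
  · subst hn0
    have hm1 : m = 1 := by simpa using hmn
    subst hm1
    rw [one_mul, nz_pos le_rfl, h1]
    simp
  rw [nz_pos (Nat.mul_pos hm0 hn0), nz_pos hm0, nz_pos hn0, hm m n hmn]
  push_cast
  rfl

theorem nz_norm {f : ℕ → ℝ} (hf : ∀ n, 1 ≤ n → |f n| ≤ 1) (n : ℕ) : ‖nz f n‖ ≤ 1 := by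
  unfold nz
  split_ifs with h
  · simp
  · rw [Complex.norm_real]
    exact hf n (by omega)

/-- all correlations with a fixed weight -/
theorem corr_as {e : ℕ → Ω → ℝ} (hm : ∀ p, Measurable (e p)) (he : ∀ p ω, e p ω = 1 ∨ e p ω = -1)
    (hind : iIndepFun e P) (hT : Thick fun p => 1 - |∫ ω, e p ω ∂P|) {k : ℕ} (hk : 1 ≤ k)
    (h : Fin k → ℕ) (hinj : Function.Injective h) (w : ℕ → ℂ) (hw : ∀ n, ‖w n‖ ≤ 1)
    (c : Fin k → ℕ → ℂ) (hc : ∀ t p, ‖c t p‖ ≤ 1) :
    ∀ᵐ ω ∂P, ∀ f : Fin k → ℕ → ℂ, (∀ t, Mult (f t)) → (∀ t n, ‖f t n‖ ≤ 1) →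
      (∀ t, ZD {p | f t p ≠ e p ω * c t p}) →
      Tendsto (fun N : ℕ => (∑ n ∈ Icc 1 N, w n * ∏ t, f t (n + h t)) / (N : ℂ)) atTop
        (nhds 0) := by
  have he1 : ∀ p ω, ‖((e p ω : ℝ) : ℂ)‖ = 1 := by
    intro p ω
    rw [Complex.norm_real]
    rcases he p ω with h | h <;> rw [h] <;> simp
  have hB : ∀ (t : Fin k) (p : ℕ) (ω : Ω), ‖((e p ω : ℝ) : ℂ) * c t p‖ ≤ 1 := by
    intro t p ω
    rw [norm_mul, he1, one_mul]
    exact hc t p
  have h1 := as_zero (P := P) hk hT (fun (t : Fin k) p ω => ((e p ω : ℝ) : ℂ) * c t p) h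
    ⟨0, by omega⟩ w (fun t p => (Complex.measurable_ofReal.comp (hm p)).mul measurable_const) hB
    (by
      have h2 := hind.comp (fun p (x : ℝ) (t : Fin k) => ((x : ℝ) : ℂ) * c t p) fun p =>
        measurable_pi_lambda _ fun t => Complex.measurable_ofReal.mul measurable_const
      exact h2)
    hinj (fun p => by
      have := sign_mean (P := P) he p
      linarith) (fun p => by
      have := abs_nonneg (∫ ω, e p ω ∂P)
      linarith) (fun p _ => by
      have e5 : ∫ ω, ((e p ω : ℝ) : ℂ) ∂P = ((∫ ω, e p ω ∂P : ℝ) : ℂ) := integral_ofReal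
      rw [integral_mul_const, norm_mul, e5, sub_sub_cancel]
      refine (mul_le_of_le_one_right (norm_nonneg _) (hc _ p)).trans (le_of_eq ?_)
      exact Complex.norm_real _) hw
  filter_upwards [h1] with ω hω f hf hf1 hz
  refine hω f hf hf1 fun t => ?_
  refine zd_norm (hz t) (fun p => norm_nonneg _) (C := 2) (by norm_num) (fun p _ => ?_)
    (fun p _ hp => ?_)
  · refine (norm_sub_le _ _).trans ?_
    have := hf1 t p
    have := hB t p ω
    linarith
  · have : f t p = e p ω * c t p := by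
      by_contra hne
      exact hp hne
    rw [this, sub_self, norm_zero]

theorem cz_as {e : ℕ → Ω → ℝ} (hm : ∀ p, Measurable (e p)) (he : ∀ p ω, e p ω = 1 ∨ e p ω = -1)
    (hind : iIndepFun e P) (hT : Thick fun p => 1 - |∫ ω, e p ω ∂P|) :
    ∀ᵐ ω ∂P, ∀ (f : ℕ → ℝ) (q : ℕ) (χ : DirichletCharacter ℂ q), SignMul f →
      ZD {p | (f p : ℂ) ≠ e p ω * χ (p : ZMod q)} → Cz f := by
  have key : ∀ᵐ ω ∂P, ∀ (H : Finset ℕ) (q : ℕ) (χ : DirichletCharacter ℂ q), H.Nonempty →
      ∀ f : Fin H.card → ℕ → ℂ, (∀ t, Mult (f t)) → (∀ t n, ‖f t n‖ ≤ 1) →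
      (∀ t, ZD {p | f t p ≠ e p ω * χ (p : ZMod q)}) →
      Tendsto (fun N : ℕ => (∑ n ∈ Icc 1 N, (1 : ℂ) * ∏ t, f t (n + H.orderEmbOfFin rfl t)) /
        (N : ℂ)) atTop (nhds 0) := by
    refine ae_all_iff.2 fun H => ae_all_iff.2 fun q => ?_
    have := char_count q
    refine ae_all_iff.2 fun χ => ?_
    by_cases hH : H.Nonempty
    · have h1 := corr_as (P := P) hm he hind hT (k := H.card) (card_pos.2 hH)
        (fun t => H.orderEmbOfFin rfl t) (fun a b hab => (H.orderEmbOfFin rfl).injective hab)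
        (fun _ => 1) (fun _ => by simp) (fun _ p => χ (p : ZMod q)) (fun _ p => char_norm χ p)
      filter_upwards [h1] with ω hω _
      exact hω
    · exact Eventually.of_forall fun ω h => absurd h hH
  filter_upwards [key] with ω hω f q χ hf hz H hH
  have hf1 : ∀ n, 1 ≤ n → |f n| ≤ 1 := by
    intro n hn
    rcases hf.val n hn with h | h <;> rw [h] <;> simp
  have h1 := hω H q χ hH (fun _ => nz f) (fun _ => nz_mult hf.one hf.mul) (fun _ => nz_norm hf1)
    (fun _ => hz.mono fun p hp h2 => by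
      have h3 : nz f p ≠ e p ω * χ (p : ZMod q) := h2
      rw [nz_pos hp.one_lt.le] at h3
      exact h3)
  have h2 : Tendsto (fun N : ℕ => (((∑ n ∈ Icc 1 N, ∏ a ∈ H, f (n + a)) / (N : ℝ) : ℝ) : ℂ)) atTop
      (nhds ((0 : ℝ) : ℂ)) := by
    refine h1.congr fun N => ?_
    push_cast
    congr 1
    refine sum_congr rfl fun n hn => ?_
    have hn1 := (mem_Icc.1 hn).1
    rw [one_mul]
    have e1 : ∏ a ∈ H, ((f (n + a) : ℝ) : ℂ) = ∏ t : Fin H.card,
        ((f (n + H.orderEmbOfFin rfl t) : ℝ) : ℂ) := by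
      conv_lhs => rw [← H.image_orderEmbOfFin_univ rfl]
      rw [prod_image fun a _ b _ hab => (H.orderEmbOfFin rfl).injective hab]
    rw [e1]
    refine prod_congr rfl fun t _ => ?_
    rw [nz_pos (by omega)]
  exact (Complex.continuous_re.tendsto _ |>.comp h2 : _)

/-- almost surely none of the functions is at finite distance from a character -/
theorem aper_as {e : ℕ → Ω → ℝ} (hm : ∀ p, Measurable (e p)) (he : ∀ p ω, e p ω = 1 ∨ e p ω = -1)
    (hind : iIndepFun e P) (hT : Thick fun p => 1 - |∫ ω, e p ω ∂P|) :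
    ∀ᵐ ω ∂P, ∀ (f : ℕ → ℝ) (q : ℕ) (χ : DirichletCharacter ℂ q), SignMul f →
      ZD {p | (f p : ℂ) ≠ e p ω * χ (p : ZMod q)} → Aper f := by
  have key : ∀ᵐ ω ∂P, ∀ (q q' : ℕ) (χ : DirichletCharacter ℂ q) (ψ : DirichletCharacter ℂ q'),
      ∀ f : Fin 1 → ℕ → ℂ, (∀ t, Mult (f t)) → (∀ t n, ‖f t n‖ ≤ 1) →
      (∀ t, ZD {p | f t p ≠ e p ω * (χ (p : ZMod q) * star (ψ (p : ZMod q')))}) →
      Tendsto (fun N : ℕ => (∑ n ∈ Icc 1 N, (1 : ℂ) * ∏ t, f t (n + (t : ℕ))) /
        (N : ℂ)) atTop (nhds 0) := by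
    refine ae_all_iff.2 fun q => ae_all_iff.2 fun q' => ?_
    have := char_count q
    have := char_count q'
    refine ae_all_iff.2 fun χ => ae_all_iff.2 fun ψ => ?_
    exact corr_as (P := P) hm he hind hT (k := 1) le_rfl (fun t => (t : ℕ))
      (fun a b _ => Subsingleton.elim a b) (fun _ => 1) (fun _ => by simp)
      (fun _ p => χ (p : ZMod q) * star (ψ (p : ZMod q'))) (fun _ p => by
        rw [norm_mul, norm_star]
        exact mul_le_one₀ (char_norm χ p) (norm_nonneg _) (char_norm ψ p))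
  filter_upwards [key] with ω hω f q χ hf hz q' ψ hq' hs
  have hz2 := zd_of_nonaper hf.val hq' ψ hs
  have hz3 : ZD {p : ℕ | p ∣ q'} := zd_finite ((Set.finite_Icc 0 q').subset fun p hp => by
    exact Set.mem_Icc.2 ⟨Nat.zero_le _, Nat.le_of_dvd (by omega) hp⟩)
  have hz4 : ZD {p | (1 : ℂ) ≠ e p ω * (χ (p : ZMod q) * star (ψ (p : ZMod q')))} := by
    refine ZD.union (hz.union hz2 (V := {p | (f p : ℂ) ≠ e p ω * χ (p : ZMod q)} ∪
      {p | (f p : ℂ) ≠ ψ (p : ZMod q')}) fun p _ hp => hp) hz3 fun p hp h1 => ?_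
    by_contra hcon
    push Not at hcon
    obtain ⟨h2, h3⟩ := hcon
    have h4 : (f p : ℂ) = e p ω * χ (p : ZMod q) := by
      by_contra h5
      exact h2 (Or.inl h5)
    have h5 : (f p : ℂ) = ψ (p : ZMod q') := by
      by_contra h6
      exact h2 (Or.inr h6)
    apply h1
    rw [← mul_assoc, ← h4, h5]
    have hu : IsUnit (p : ZMod q') := by
      rw [ZMod.isUnit_iff_coprime]
      exact (Nat.Prime.coprime_iff_not_dvd hp).2 h3
    have hn : ‖ψ (p : ZMod q')‖ = 1 := by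
      have h7 : ‖((f p : ℝ) : ℂ)‖ = 1 := by
        rw [Complex.norm_real]
        rcases hf.val p hp.one_lt.le with h | h <;> rw [h] <;> simp
      rw [← h5]
      exact h7
    have h8 : ψ (p : ZMod q') * star (ψ (p : ZMod q')) = ((‖ψ (p : ZMod q')‖ ^ 2 : ℝ) : ℂ) := by
      have h9 := Complex.mul_conj (ψ (p : ZMod q'))
      rw [Complex.normSq_eq_norm_sq] at h9
      exact h9
    rw [h8, hn]
    simp
  have h1 := hω q q' χ ψ (fun _ _ => 1) (fun _ => ⟨rfl, fun _ _ _ => by simp⟩) (fun _ _ => by simp)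
    (fun _ => hz4)
  have h2 : Tendsto (fun N : ℕ => (∑ n ∈ Icc 1 N, (1 : ℂ) * ∏ t : Fin 1, (1 : ℂ)) / (N : ℂ)) atTop
      (nhds 1) := by
    refine tendsto_const_nhds.congr' ?_
    filter_upwards [eventually_ge_atTop 1] with N hN
    have hN0 : (N : ℂ) ≠ 0 := by exact_mod_cast (show N ≠ 0 by omega)
    simp [hN0]
  exact zero_ne_one (tendsto_nhds_unique h1 h2)

end Pool.Agent.H484.ST
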